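import Pool.Agent.Lib_helper55.SepHadwigerProof

/-!
# The density statement for minimal separable Hadwiger number fails (MP_75a0ab_co)

The definitions are in `Pool.Agent.Lib_helper55.SepHadwigerDefs`, the proof in
`Pool.Agent.Lib_helper55.SepHadwigerProof`.
-/

open scoped RealInnerProductSpace Pointwise

namespace Pool.Agent.Results.MP_75a0ab_co.DensityFails

open Pool.Agent.Lib_helper55.SepHadwiger

/-- **The density statement fails in every dimension `d ≥ 7`**: there is an `o`-symmetric convex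
body `K₀` all of whose neighbours `K` in the Hausdorff metric have `Hsep K > 2 d`. -/
theorem result : ∀ d : ℕ, 7 ≤ d →
    (∃ K₀ : Set (E d), IsSymBody K₀ ∧ ∃ ε > 0, ∀ K : Set (E d), IsSymBody K →
      Metric.hausdorffDist K K₀ < ε → ((2 * d : ℕ) : ℕ∞) < Hsep K) ∧
    ¬ DensityStatement d := by
  intro d hd
  obtain ⟨n, hn, hr⟩ := exists_robust_of_seven_le d hd
  obtain ⟨K₀, hb, ε, hε, hK₀⟩ := hr.exists_body
  have key : ∀ K : Set (E d), IsSymBody K → Metric.hausdorffDist K K₀ < ε →
      ((2 * d : ℕ) : ℕ∞) < Hsep K := by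
    intro K hKb hK
    refine lt_of_lt_of_le ?_ (hK₀ K hKb hK)
    exact_mod_cast (show 2 * d < n by omega)
  refine ⟨⟨K₀, hb, ε, hε, key⟩, fun hdense => ?_⟩
  obtain ⟨K, hKb, hdist, hK⟩ := hdense K₀ hb ε hε
  have h1 := key K hKb hdist
  rw [hK] at h1
  exact lt_irrefl _ h1

end Pool.Agent.Results.MP_75a0ab_co.DensityFails
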